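import Mathlib
import Pool.Agent.D0H90.SM.Stm

/-!
# SM, module DOM, part 1: derivations
-/

set_option autoImplicit false
set_option linter.all false

namespace Pool.Agent.D0H21.SM

open MvPolynomial Matrix Pool.Agent.D0H90.SM

open TensorProduct in
theorem exists_der (K σ : Type*) [Field K] (b : σ → FractionRing (MvPolynomial σ K)) :
    ∃ D : Derivation K (FractionRing (MvPolynomial σ K)) (FractionRing (MvPolynomial σ K)),
      ∀ s, D (algebraMap (MvPolynomial σ K) _ (X s)) = b s := by
  haveI := Algebra.FormallyEtale.of_isLocalization (Rₘ := FractionRing (MvPolynomial σ K))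
    (nonZeroDivisors (MvPolynomial σ K))
  obtain ⟨D₀, hD₀⟩ : ∃ D₀ : Derivation K (MvPolynomial σ K) (FractionRing (MvPolynomial σ K)), D₀ = mkDerivation K b :=
    ⟨_, rfl⟩
  refine ⟨((LinearMap.liftBaseChange (FractionRing (MvPolynomial σ K)) D₀.liftKaehlerDifferential) ∘ₗ
    (KaehlerDifferential.tensorKaehlerEquivOfFormallyEtale K (MvPolynomial σ K)
      (FractionRing (MvPolynomial σ K))).symm.toLinearMap).compDer
    (KaehlerDifferential.D K (FractionRing (MvPolynomial σ K))), fun s => ?_⟩
  have h1 := KaehlerDifferential.tensorKaehlerEquivOfFormallyEtale_symm_D_algebraMap K (MvPolynomial σ K)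
    (FractionRing (MvPolynomial σ K)) (X s)
  change (LinearMap.liftBaseChange (FractionRing (MvPolynomial σ K)) D₀.liftKaehlerDifferential)
    ((KaehlerDifferential.tensorKaehlerEquivOfFormallyEtale K (MvPolynomial σ K)
      (FractionRing (MvPolynomial σ K))).symm (KaehlerDifferential.D K (FractionRing (MvPolynomial σ K))
        (algebraMap (MvPolynomial σ K) (FractionRing (MvPolynomial σ K)) (X s)))) = b s
  rw [h1, LinearMap.liftBaseChange_tmul, one_smul, Derivation.liftKaehlerDifferential_comp_D, hD₀, mkDerivation_X]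

section chain

variable {K F : Type*} [Field K] [Field F] [Algebra K F] (D : Derivation K F F)

theorem der_prod {ι : Type*} [DecidableEq ι] (s : Finset ι) (x : ι → F) (m : ι → ℕ) :
    D (∏ l ∈ s, x l ^ m l) = ∑ l ∈ s, ((m l : ℕ) : F) * D (x l) * ∏ t ∈ s, x t ^ (if t = l then m t - 1 else m t) := by
  induction s using Finset.induction_on with
  | empty => simp
  | insert a s ha ih =>
    rw [Finset.prod_insert ha, D.leibniz, ih, D.leibniz_pow, Finset.sum_insert ha, Finset.prod_insert ha, if_pos rfl]
    have h1 : ∏ t ∈ s, x t ^ (if t = a then m t - 1 else m t) = ∏ t ∈ s, x t ^ m t := by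
      refine Finset.prod_congr rfl fun t ht => ?_
      rw [if_neg]
      rintro rfl
      exact ha ht
    have h2 : ∑ l ∈ s, ((m l : ℕ) : F) * D (x l) * ∏ t ∈ insert a s, x t ^ (if t = l then m t - 1 else m t) =
        x a ^ m a * ∑ l ∈ s, ((m l : ℕ) : F) * D (x l) * ∏ t ∈ s, x t ^ (if t = l then m t - 1 else m t) := by
      rw [Finset.mul_sum]
      refine Finset.sum_congr rfl fun l hl => ?_
      rw [Finset.prod_insert ha, if_neg]
      · ring
      · rintro rfl
        exact ha hl
    rw [h1, h2]
    simp only [smul_eq_mul, nsmul_eq_mul]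
    ring

theorem der_mon {n d : ℕ} (m : Ex n d) (x : Fin n → F) : D (mon m x) = dmon m x fun l => D (x l) := by
  unfold mon dmon
  rw [der_prod]

theorem der_ev {n d : ℕ} (c : Cf n d → K) (x : Fin n → F) (j : Fin n) :
    D (ev (fun a => algebraMap K F (c a)) x j) = dev (fun a => algebraMap K F (c a)) x (fun l => D (x l)) j := by
  unfold ev dev
  rw [map_sum]
  refine Finset.sum_congr rfl fun m _ => ?_
  rw [D.leibniz, D.map_algebraMap, smul_zero, add_zero, smul_eq_mul, der_mon]

/-- the field of constants -/
def csts : IntermediateField K F where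
  carrier := {x | D x = 0}
  mul_mem' := fun {a b} ha hb => by
    simp only [Set.mem_setOf_eq] at ha hb ⊢
    rw [D.leibniz, ha, hb, smul_zero, smul_zero, add_zero]
  add_mem' := fun {a b} ha hb => by
    simp only [Set.mem_setOf_eq] at ha hb ⊢
    rw [map_add, ha, hb, add_zero]
  algebraMap_mem' := fun r => by
    simp only [Set.mem_setOf_eq]
    exact D.map_algebraMap r
  inv_mem' := fun a ha => by
    simp only [Set.mem_setOf_eq] at ha ⊢
    change D a⁻¹ = 0
    rw [D.leibniz_inv]
    change -a⁻¹ ^ 2 • D a = 0
    have : D a = 0 := ha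
    rw [this, smul_zero]

theorem mem_csts {x : F} : x ∈ csts D ↔ D x = 0 := Iff.rfl

/-- the derivation is linear over the constants -/
def dcst : Derivation (csts D) F F :=
  Derivation.mk'
    { toFun := D
      map_add' := map_add D
      map_smul' := by
        intro r x
        have h0 : D (algebraMap (csts D) F r) = 0 := r.2
        rw [Algebra.smul_def, D.leibniz, h0, smul_zero, add_zero, RingHom.id_apply,
          Algebra.smul_def r (D x), smul_eq_mul] }
    (fun a b => D.leibniz a b)

theorem der_eq_zero [CharZero F] (x : F) (hx : IsIntegral (csts D) x) : D x = 0 := by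
  have h1 : (minpoly (csts D) x).Separable := (minpoly.irreducible hx).separable
  have h2 := (dcst D).map_aeval (minpoly (csts D) x) x
  rw [minpoly.aeval, map_zero] at h2
  have h3 := h1.aeval_derivative_ne_zero (minpoly.aeval _ x)
  have h4 : (dcst D) x = D x := rfl
  rw [h4, smul_eq_mul] at h2
  exact (mul_eq_zero.1 h2.symm).resolve_left h3

end chain

end Pool.Agent.D0H21.SM
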