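import Mathlib
import Pool.Agent.D0H90.SM.Stm

/-!
# SM, module DOM, part 2: the matrix of the linear map
-/

set_option autoImplicit false
set_option linter.all false

namespace Pool.Agent.D0H21.SM

open MvPolynomial Matrix Pool.Agent.D0H90.SM

theorem dmon_lin {n d : ℕ} {R : Type*} [CommRing R] (m : Ex n d) (x y : Fin n → R) :
    dmon m x y = ∑ l, y l * dmon m x (bas l) := by
  unfold dmon
  refine Finset.sum_congr rfl fun l _ => ?_
  rw [Finset.sum_eq_single l]
  · have h : (bas l : Fin n → R) l = 1 := Pi.single_eq_same l 1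
    simp only [h]
    ring
  · intro b _ hb
    have h : (bas l : Fin n → R) b = 0 := Pi.single_eq_of_ne hb 1
    simp only [h]
    ring
  · intro h
    exact absurd (Finset.mem_univ l) h

theorem dev_lin {n d : ℕ} {R : Type*} [CommRing R] (c : Cf n d → R) (x y : Fin n → R) (j : Fin n) :
    dev c x y j = ∑ l, y l * dev c x (bas l) j := by
  unfold dev
  simp only [Finset.mul_sum]
  rw [Finset.sum_comm]
  refine Finset.sum_congr rfl fun m _ => ?_
  rw [dmon_lin, Finset.mul_sum]
  refine Finset.sum_congr rfl fun l _ => ?_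
  ring

/-- the matrix of `B ↦ (det A * Df(a_i) b_i - B adj(A) f(a_i))_i` -/
noncomputable def LL {n d : ℕ} {R : Type*} [CommRing R] (c : Cf n d → R) (A : Matrix (Fin n) (Fin n) R) :
    Matrix (Fin n × Fin n) (Fin n × Fin n) R := fun p q =>
  (if q.2 = p.2 then A.det * dev c (fun l => A l p.2) (bas q.1) p.1 else 0) -
    (if q.1 = p.1 then (A.adjugate *ᵥ ev c (fun l => A l p.2)) q.2 else 0)

theorem LL_mulVec {n d : ℕ} {R : Type*} [CommRing R] (c : Cf n d → R) (A B : Matrix (Fin n) (Fin n) R)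
    (j i : Fin n) : (LL c A *ᵥ fun q => B q.1 q.2) (j, i) =
      A.det * dev c (fun l => A l i) (fun l => B l i) j - (B *ᵥ (A.adjugate *ᵥ ev c (fun l => A l i))) j := by
  have h1 : (LL c A *ᵥ fun q => B q.1 q.2) (j, i) = ∑ l, ∑ s,
      ((if s = i then A.det * dev c (fun l => A l i) (bas l) j else 0) -
      (if l = j then (A.adjugate *ᵥ ev c (fun l => A l i)) s else 0)) * B l s := by
    unfold Matrix.mulVec dotProduct
    rw [Fintype.sum_prod_type]
    rfl
  rw [h1]
  simp only [sub_mul, Finset.sum_sub_distrib, ite_mul, zero_mul, Finset.sum_ite_eq', Finset.mem_univ, if_true]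
  congr 1
  · rw [dev_lin c _ (fun l => B l i), Finset.mul_sum]
    refine Finset.sum_congr rfl fun l _ => ?_
    ring
  · rw [Finset.sum_eq_single j]
    · simp only [if_true]
      unfold Matrix.mulVec dotProduct
      refine Finset.sum_congr rfl fun s _ => ?_
      ring
    · intro b _ hb
      simp [hb]
    · intro h
      exact absurd (Finset.mem_univ j) h

universe u

theorem LL_map (hb : S_BASE.{u}) {n d : ℕ} {R S : Type u} [CommRing R] [CommRing S] (φ : R →+* S) (c : Cf n d → R)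
    (A : Matrix (Fin n) (Fin n) R) : LL (fun a => φ (c a)) (A.map φ) = (LL c A).map φ := by
  obtain ⟨b1, b2, b3, b4, b5, b6, b7, b8, b9⟩ := hb
  ext p q
  change LL (fun a => φ (c a)) (A.map φ) p q = φ (LL c A p q)
  unfold LL
  rw [map_sub]
  simp only [Matrix.map_apply]
  have e1 : (A.map φ).det = φ A.det := (φ.map_det A).symm
  have e2 : (A.map φ).adjugate = A.adjugate.map φ := (φ.map_adjugate A).symm
  have e3 : ∀ l : Fin n, (bas l : Fin n → S) = fun s => φ ((bas l : Fin n → R) s) := by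
    intro l
    funext s
    by_cases h : s = l
    · subst h
      simp
    · simp [Pi.single_eq_of_ne h]
  have e4 : dev (fun a => φ (c a)) (fun l => φ (A l p.2)) (bas q.1) p.1 = φ (dev c (fun l => A l p.2) (bas q.1) p.1) := by
    rw [e3, b4 R S φ n d c (fun l => A l p.2) (bas q.1)]
  have e5 : (A.adjugate.map φ *ᵥ ev (fun a => φ (c a)) (fun l => φ (A l p.2))) q.2 =
      φ ((A.adjugate *ᵥ ev c (fun l => A l p.2)) q.2) := by
    rw [b3 R S φ n d c (fun l => A l p.2)]
    exact (RingHom.map_mulVec φ A.adjugate (ev c fun l => A l p.2) q.2).symm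
  rw [e1, e2, e4, e5]
  congr 1
  · split_ifs
    · rw [map_mul]
    · rw [map_zero]
  · split_ifs
    · rfl
    · rw [map_zero]

/-- if the matrix is invertible at `A`, the conjugate by `A` is transversal -/
theorem transv_of (hb : S_BASE.{u}) {n d : ℕ} {K : Type u} [Field K] (c : Cf n d → K) (A : Matrix (Fin n) (Fin n) K)
    (hA : A.det ≠ 0) (hL : (LL c A).det ≠ 0) : Transv (conj A A⁻¹ c) := by
  obtain ⟨b1, b2, b3, b4, b5, b6, b7, b8, b9⟩ := hb
  intro B hB
  have hu : IsUnit A.det := isUnit_iff_ne_zero.2 hA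
  have h1 : LL c A *ᵥ (fun q => (A * B) q.1 q.2) = 0 := by
    funext p
    obtain ⟨j, i⟩ := p
    rw [LL_mulVec]
    have h2 := hB i
    rw [b9, b1] at h2
    have h3 : (A.det • A) *ᵥ (A⁻¹ *ᵥ dev c (A *ᵥ bas i) (A *ᵥ (B *ᵥ bas i))) =
        (A.det • A) *ᵥ (B *ᵥ (A⁻¹ *ᵥ ev c (A *ᵥ bas i))) := by rw [h2]
    have e1 : A *ᵥ bas i = fun l => A l i := by
      rw [Matrix.mulVec_single_one]
      rfl
    have e2 : A *ᵥ (B *ᵥ bas i) = fun l => (A * B) l i := by
      rw [Matrix.mulVec_mulVec, Matrix.mulVec_single_one]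
      rfl
    rw [e1, e2, Matrix.smul_mulVec, Matrix.smul_mulVec, Matrix.mulVec_mulVec, Matrix.mul_nonsing_inv A hu,
      Matrix.one_mulVec] at h3
    have e3 : A.det • (A *ᵥ (B *ᵥ (A⁻¹ *ᵥ ev c (fun l => A l i)))) =
        (A * B) *ᵥ (A.adjugate *ᵥ ev c (fun l => A l i)) := by
      have e4 : A.adjugate = A.det • A⁻¹ := by
        rw [Matrix.inv_def, smul_smul, Ring.mul_inverse_cancel _ hu, one_smul]
      rw [e4, Matrix.smul_mulVec, Matrix.mulVec_smul, Matrix.mulVec_mulVec]
    rw [e3] at h3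
    have h4 := congrFun h3 j
    rw [Pi.smul_apply, smul_eq_mul] at h4
    rw [h4, sub_self]
    rfl
  have h5 := Matrix.eq_zero_of_mulVec_eq_zero hL h1
  have h6 : A * B = 0 := by
    ext l s
    exact congrFun h5 (l, s)
  calc B = A⁻¹ * (A * B) := by rw [← Matrix.mul_assoc, Matrix.nonsing_inv_mul A hu, Matrix.one_mul]
    _ = 0 := by rw [h6, Matrix.mul_zero]

end Pool.Agent.D0H21.SM
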