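import Mathlib
import Pool.Agent.D0H90.SM.Stm
import Pool.Agent.D0H21.SM.Dom1
import Pool.Agent.D0H21.SM.Dom2

/-!
# SM, module DOM
-/

set_option autoImplicit false
set_option linter.all false

namespace Pool.Agent.D0H21.SM

open MvPolynomial Matrix Pool.Agent.D0H90.SM

theorem strong_map {n d : ℕ} {R S : Type*} [CommRing R] [CommRing S] (φ : R →+* S) (c : Cf n d → R) (hc : Strong c) :
    Strong (fun a => φ (c a)) := by
  obtain ⟨M, hM⟩ := hc
  refine ⟨M, fun l => ?_⟩
  have h1 := hM l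
  rw [Ideal.mem_span_range_iff_exists_fun] at h1 ⊢
  obtain ⟨g, hg⟩ := h1
  refine ⟨fun j => MvPolynomial.map φ (g j), ?_⟩
  have h2 := congrArg (MvPolynomial.map φ) hg
  rw [map_sum, map_pow, map_X] at h2
  rw [← h2]
  refine Finset.sum_congr rfl fun j _ => ?_
  rw [map_mul]
  congr 1
  unfold ev mon
  simp [map_sum, map_mul, map_prod]

universe u

theorem dom_sing (hb : S_BASE.{u}) (hi : S_INT.{u}) (K : Type u) [Field K] [CharZero K] (n d : ℕ) (hd : 2 ≤ d)
    (c : Cf n d → K) (hs : Strong c) (v : Fin n × Fin n → MvPolynomial (Fin n × Fin n) K)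
    (hv : LL (fun a => (C (c a) : MvPolynomial (Fin n × Fin n) K)) (Matrix.mvPolynomialX (Fin n) (Fin n) K) *ᵥ v = 0) :
    v = 0 := by
  obtain ⟨D, hD⟩ := exists_der K (Fin n × Fin n)
    (fun q => algebraMap (MvPolynomial (Fin n × Fin n) K) (FractionRing (MvPolynomial (Fin n × Fin n) K)) (v q))
  have hinj : Function.Injective (algebraMap (MvPolynomial (Fin n × Fin n) K)
      (FractionRing (MvPolynomial (Fin n × Fin n) K))) := IsFractionRing.injective _ _
  obtain ⟨φ, hφ⟩ : ∃ φ : MvPolynomial (Fin n × Fin n) K →+* FractionRing (MvPolynomial (Fin n × Fin n) K),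
    φ = algebraMap _ _ := ⟨_, rfl⟩
  rw [← hφ] at hD hinj
  haveI : CharZero (FractionRing (MvPolynomial (Fin n × Fin n) K)) :=
    charZero_of_injective_algebraMap (R := K) (algebraMap K _).injective
  have hcF : ∀ a, φ (C (c a)) = algebraMap K (FractionRing (MvPolynomial (Fin n × Fin n) K)) (c a) := by
    intro a
    rw [hφ, IsScalarTower.algebraMap_apply K (MvPolynomial (Fin n × Fin n) K)
      (FractionRing (MvPolynomial (Fin n × Fin n) K)), MvPolynomial.algebraMap_eq]
  obtain ⟨cF, hcF'⟩ : ∃ cF : Cf n d → FractionRing (MvPolynomial (Fin n × Fin n) K),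
    cF = fun a => algebraMap K (FractionRing (MvPolynomial (Fin n × Fin n) K)) (c a) := ⟨_, rfl⟩
  obtain ⟨E, hE⟩ : ∃ E : Matrix (Fin n) (Fin n) (FractionRing (MvPolynomial (Fin n × Fin n) K)),
    E = (Matrix.mvPolynomialX (Fin n) (Fin n) K).map φ := ⟨_, rfl⟩
  obtain ⟨V, hV⟩ : ∃ V : Matrix (Fin n) (Fin n) (FractionRing (MvPolynomial (Fin n × Fin n) K)),
    V = Matrix.of fun l i => φ (v (l, i)) := ⟨_, rfl⟩
  have hEd : E.det ≠ 0 := by
    rw [hE]
    have h1 : ((Matrix.mvPolynomialX (Fin n) (Fin n) K).map φ).det = φ (Matrix.mvPolynomialX (Fin n) (Fin n) K).det :=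
      (φ.map_det _).symm
    rw [h1]
    intro h2
    exact Matrix.det_mvPolynomialX_ne_zero (Fin n) K (hinj (by rw [h2, map_zero]))
  have hDE : ∀ l i, D (E l i) = V l i := by
    intro l i
    rw [hE, hV]
    exact hD (l, i)
  have hL : LL cF E *ᵥ (fun q => V q.1 q.2) = 0 := by
    have h1 := LL_map hb φ (fun a => (C (c a) : MvPolynomial (Fin n × Fin n) K)) (Matrix.mvPolynomialX (Fin n) (Fin n) K)
    have h2 : (fun a => φ (C (c a))) = cF := by
      rw [hcF']
      funext a
      exact hcF a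
    rw [h2, ← hE] at h1
    rw [h1]
    funext q
    have h3 := RingHom.map_mulVec φ (LL (fun a => (C (c a) : MvPolynomial (Fin n × Fin n) K))
      (Matrix.mvPolynomialX (Fin n) (Fin n) K)) v q
    rw [hv, Pi.zero_apply, map_zero] at h3
    have h4 : (fun q : Fin n × Fin n => V q.1 q.2) = φ ∘ v := by
      rw [hV]
      rfl
    rw [h4]
    exact h3.symm
  obtain ⟨g, hg⟩ : ∃ g : Fin n → Fin n → FractionRing (MvPolynomial (Fin n × Fin n) K),
    g = fun i => E⁻¹ *ᵥ ev cF (fun l => E l i) := ⟨_, rfl⟩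
  have hu : IsUnit E.det := isUnit_iff_ne_zero.2 hEd
  have hEg : ∀ i, E *ᵥ g i = ev cF (fun l => E l i) := by
    intro i
    rw [hg, Matrix.mulVec_mulVec, Matrix.mul_nonsing_inv E hu, Matrix.one_mulVec]
  have hdev : ∀ i j, dev cF (fun l => E l i) (fun l => V l i) j = (V *ᵥ g i) j := by
    intro i j
    have h1 := congrFun hL (j, i)
    rw [LL_mulVec, Pi.zero_apply, sub_eq_zero] at h1
    have h2 : E.adjugate *ᵥ ev cF (fun l => E l i) = E.det • g i := by
      have e4 : E.adjugate = E.det • E⁻¹ := by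
        rw [Matrix.inv_def, smul_smul, Ring.mul_inverse_cancel _ hu, one_smul]
      rw [e4, Matrix.smul_mulVec, hg]
    rw [h2, Matrix.mulVec_smul, Pi.smul_apply, smul_eq_mul] at h1
    exact mul_left_cancel₀ hEd h1
  have hDg : ∀ i, (fun s => D (g i s)) = 0 := by
    intro i
    refine Matrix.eq_zero_of_mulVec_eq_zero hEd ?_
    funext j
    have h1 : D ((E *ᵥ g i) j) = dev cF (fun l => E l i) (fun l => V l i) j := by
      rw [hEg i, hcF', der_ev]
      congr 1
      funext l
      exact hDE l i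
    rw [hdev] at h1
    have h2 : D ((E *ᵥ g i) j) = (E *ᵥ fun s => D (g i s)) j + (V *ᵥ g i) j := by
      unfold Matrix.mulVec dotProduct
      rw [map_sum, ← Finset.sum_add_distrib]
      refine Finset.sum_congr rfl fun s _ => ?_
      rw [D.leibniz, hDE, smul_eq_mul, smul_eq_mul]
      ring
    rw [h2] at h1
    rw [Pi.zero_apply]
    exact add_eq_right.1 h1
  have hint := hi (csts D) (FractionRing (MvPolynomial (Fin n × Fin n) K)) n d hd
    (fun a => algebraMap K (csts D) (c a)) (strong_map _ _ hs)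
    (Matrix.of fun j i => (⟨g i j, congrFun (hDg i) j⟩ : csts D)) E (by
      intro i
      have h1 : (fun a => algebraMap (csts D) (FractionRing (MvPolynomial (Fin n × Fin n) K))
          (algebraMap K (csts D) (c a))) = cF := by
        rw [hcF']
        rfl
      rw [h1, ← hEg i]
      rfl)
  funext q
  obtain ⟨l, i⟩ := q
  have h1 := der_eq_zero D (E l i) (hint l i)
  rw [hDE, hV] at h1
  exact hinj (by rw [Pi.zero_apply, map_zero]; exact h1)

theorem t_DOM (hb : S_BASE.{u}) (hn : S_NDG.{u}) (hi : S_INT.{u}) : S_DOM.{u} := by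
  intro K _ _ _ n d hd c hc
  have hs : Strong c := hn K K (RingHom.id K) Function.surjective_id n d c hc
  have h : (LL (fun a => (C (c a) : MvPolynomial (Fin n × Fin n) K)) (Matrix.mvPolynomialX (Fin n) (Fin n) K)).det ≠ 0 := by
    intro h
    obtain ⟨v, hv0, hv⟩ := Matrix.exists_mulVec_eq_zero_iff.2 h
    exact hv0 (dom_sing hb hi K n d hd c hs v hv)
  have hX := Matrix.det_mvPolynomialX_ne_zero (Fin n) K
  obtain ⟨a, ha⟩ : ∃ a : Fin n × Fin n → K, eval a ((LL (fun a => (C (c a) : MvPolynomial (Fin n × Fin n) K))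
      (Matrix.mvPolynomialX (Fin n) (Fin n) K)).det * (Matrix.mvPolynomialX (Fin n) (Fin n) K).det) ≠ 0 := by
    by_contra hcon
    push Not at hcon
    exact mul_ne_zero h hX (MvPolynomial.funext fun a => by rw [hcon a, map_zero])
  rw [map_mul] at ha
  obtain ⟨A, hA⟩ : ∃ A : Matrix (Fin n) (Fin n) K, A = (Matrix.mvPolynomialX (Fin n) (Fin n) K).map (eval a) := ⟨_, rfl⟩
  have h1 : A.det = eval a (Matrix.mvPolynomialX (Fin n) (Fin n) K).det := by
    rw [hA]
    exact ((eval a).map_det _).symm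
  have h2 : (LL c A).det = eval a (LL (fun a => (C (c a) : MvPolynomial (Fin n × Fin n) K))
      (Matrix.mvPolynomialX (Fin n) (Fin n) K)).det := by
    have h3 := LL_map hb (eval a) (fun a => (C (c a) : MvPolynomial (Fin n × Fin n) K))
      (Matrix.mvPolynomialX (Fin n) (Fin n) K)
    have h4 : (fun b => eval a (C (c b))) = c := by
      funext b
      exact eval_C _
    rw [h4, ← hA] at h3
    rw [h3]
    exact ((eval a).map_det _).symm
  have hA0 : A.det ≠ 0 := by
    rw [h1]
    exact right_ne_zero_of_mul ha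
  refine ⟨A, A⁻¹, Matrix.mul_nonsing_inv A (isUnit_iff_ne_zero.2 hA0), transv_of hb c A hA0 ?_⟩
  rw [h2]
  exact left_ne_zero_of_mul ha

end Pool.Agent.D0H21.SM
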