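import Mathlib
import Pool.Agent.D0H90.SM.Stm

/-!
# SM, module INT: integrality of the entries
-/

set_option autoImplicit false
set_option linter.all false

namespace Pool.Agent.D0H21.SM

open MvPolynomial Matrix Pool.Agent.D0H90.SM

theorem int_core {O Ω : Type*} [CommRing O] [CommRing Ω] [Algebra O Ω] {σ : Type*} [Fintype σ] [DecidableEq σ]
    (e : σ → Ω) (M : ℕ) (h : σ → MvPolynomial σ O) (hd : ∀ s, (h s).totalDegree < M)
    (he : ∀ s, e s ^ M = aeval e (h s)) (s : σ) : IsIntegral O (e s) := by
  obtain ⟨N, hN⟩ : ∃ N : Submodule O Ω, N = Submodule.span O (Set.range fun f : σ → Fin M => ∏ x, e x ^ (f x : ℕ)) :=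
    ⟨_, rfl⟩
  have key : ∀ D : ℕ, ∀ m : σ →₀ ℕ, m.degree = D → aeval e (monomial m (1 : O)) ∈ N := by
    intro D
    induction D using Nat.strong_induction_on with
    | _ D ih =>
      intro m hm
      by_cases hx : ∀ x, m x < M
      · rw [aeval_monomial, map_one, one_mul, Finsupp.prod_fintype _ _ fun i => pow_zero _, hN]
        exact Submodule.subset_span ⟨fun x => ⟨m x, hx x⟩, rfl⟩
      · push Not at hx
        obtain ⟨x, hx⟩ := hx
        obtain ⟨m', hm'⟩ : ∃ m', m' = m - Finsupp.single x M := ⟨_, rfl⟩
        have e1 : m = m' + Finsupp.single x M := by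
          rw [hm']
          refine (tsub_add_cancel_of_le ?_).symm
          rw [Finsupp.single_le_iff]
          exact hx
        have e2 : m.degree = m'.degree + M := by
          rw [e1, map_add, Finsupp.degree_single]
        have e3 : (monomial m (1 : O)) = monomial m' 1 * X x ^ M := by
          rw [X_pow_eq_monomial, monomial_mul, mul_one, ← e1]
        have e4 : aeval e (monomial m (1 : O)) = aeval e (monomial m' (1 : O) * h x) := by
          rw [e3, map_mul, map_mul, map_pow, aeval_X, he x]
        rw [e4]
        obtain ⟨p, hp⟩ : ∃ p, p = monomial m' (1 : O) * h x := ⟨_, rfl⟩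
        have hdeg : p.totalDegree < D := by
          rw [hp, ← hm, e2]
          refine lt_of_le_of_lt (totalDegree_mul _ _) ?_
          have h5 : (monomial m' (1 : O)).totalDegree ≤ m'.degree := by
            refine (totalDegree_monomial_le _ _).trans ?_
            rw [Finsupp.degree_eq_sum, Finsupp.sum_fintype _ _ fun _ => rfl]
            rfl
          have := hd x
          omega
        rw [← hp, p.as_sum, map_sum]
        refine Submodule.sum_mem _ fun m'' hm'' => ?_
        have h6 : (monomial m'' (coeff m'' p)) = coeff m'' p • monomial m'' (1 : O) := by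
          rw [smul_monomial, smul_eq_mul, mul_one]
        rw [h6, map_smul]
        refine Submodule.smul_mem _ _ (ih m''.degree ?_ m'' rfl)
        refine lt_of_le_of_lt ?_ hdeg
        have h7 := le_totalDegree hm''
        rw [Finsupp.degree_eq_sum]
        rw [Finsupp.sum_fintype _ _ fun _ => rfl] at h7
        exact h7
  have hall : ∀ p : MvPolynomial σ O, aeval e p ∈ N := by
    intro p
    rw [p.as_sum, map_sum]
    refine Submodule.sum_mem _ fun m'' hm'' => ?_
    have h6 : (monomial m'' (coeff m'' p)) = coeff m'' p • monomial m'' (1 : O) := by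
      rw [smul_monomial, smul_eq_mul, mul_one]
    rw [h6, map_smul]
    exact Submodule.smul_mem _ _ (key _ m'' rfl)
  have hS : Subalgebra.toSubmodule (aeval e : MvPolynomial σ O →ₐ[O] Ω).range = N := by
    apply le_antisymm
    · rintro _ ⟨p, rfl⟩
      exact hall p
    · rw [hN, Submodule.span_le]
      rintro _ ⟨f, rfl⟩
      refine ⟨∏ x, X x ^ (f x : ℕ), ?_⟩
      simp
  refine IsIntegral.of_mem_of_fg (aeval e : MvPolynomial σ O →ₐ[O] Ω).range ?_ (e s) ⟨X s, by simp⟩
  rw [hS, hN]
  exact Submodule.fg_span (Set.finite_range _)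

theorem hom_part {σ O : Type*} [CommRing O] (f g : MvPolynomial σ O) (d M : ℕ) (hf : f.IsHomogeneous d) (hM : d ≤ M) :
    homogeneousComponent M (g * f) = homogeneousComponent (M - d) g * f := by
  have h1 : g * f = ∑ i ∈ Finset.range (g.totalDegree + 1), homogeneousComponent i g * f := by
    rw [← Finset.sum_mul, sum_homogeneousComponent]
  have h2 : ∀ i, homogeneousComponent M (homogeneousComponent i g * f) =
      if i = M - d then homogeneousComponent (M - d) g * f else 0 := by
    intro i
    have h3 : (homogeneousComponent i g * f).IsHomogeneous (i + d) :=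
      (homogeneousComponent_isHomogeneous i g).mul hf
    rw [homogeneousComponent_of_mem ((mem_homogeneousSubmodule _ _).2 h3)]
    by_cases h : i = M - d
    · rw [if_pos h, if_pos (by omega), h]
    · rw [if_neg h, if_neg (by omega)]
  rw [h1, map_sum, Finset.sum_congr rfl fun i _ => h2 i, Finset.sum_ite_eq']
  split_ifs with h
  · rfl
  · rw [homogeneousComponent_eq_zero, zero_mul]
    rw [Finset.mem_range] at h
    omega

theorem ev_hom {n d : ℕ} {O : Type*} [CommRing O] (c : Cf n d → O) (j : Fin n) :
    (ev (fun b => (C (c b) : MvPolynomial (Fin n) O)) X j).IsHomogeneous d := by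
  unfold ev
  refine IsHomogeneous.sum _ _ _ fun m _ => ?_
  have h1 : (mon m (X : Fin n → MvPolynomial (Fin n) O)).IsHomogeneous d := by
    unfold mon
    have h2 := IsHomogeneous.prod Finset.univ (fun l : Fin n => (X l : MvPolynomial (Fin n) O) ^ (m.1 l : ℕ))
      (fun l => (m.1 l : ℕ)) fun l _ => isHomogeneous_X_pow _ _
    rw [m.2] at h2
    exact h2
  have h3 := (isHomogeneous_C (Fin n) (c (j, m))).mul h1
  rw [zero_add] at h3
  exact h3

theorem ev_aeval {n d : ℕ} {O Ω : Type*} [CommRing O] [CommRing Ω] [Algebra O Ω] (c : Cf n d → O) (x : Fin n → Ω)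
    (j : Fin n) : aeval x (ev (fun b => (C (c b) : MvPolynomial (Fin n) O)) X j) =
      ev (fun a => algebraMap O Ω (c a)) x j := by
  unfold ev mon
  simp [map_sum, map_mul, map_prod, algebraMap_eq]

universe u

theorem t_INT : Pool.Agent.D0H90.SM.S_INT.{u} := by
  intro O Ω _ _ _ n d hd c hc G E hE l i
  obtain ⟨M₀, hM₀⟩ := hc
  obtain ⟨M, hM⟩ : ∃ M, M = M₀ + d := ⟨_, rfl⟩
  have h1 : ∀ l : Fin n, ∃ g : Fin n → MvPolynomial (Fin n) O, (∀ j, (g j).totalDegree ≤ M - d) ∧
      ∑ j, g j * ev (fun b => (C (c b) : MvPolynomial (Fin n) O)) X j = X l ^ M := by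
    intro l
    have h2 : (X l : MvPolynomial (Fin n) O) ^ M ∈
        Ideal.span (Set.range (ev (fun b => (C (c b) : MvPolynomial (Fin n) O)) X)) := by
      rw [hM, pow_add]
      exact Ideal.mul_mem_right _ _ (hM₀ l)
    rw [Ideal.mem_span_range_iff_exists_fun] at h2
    obtain ⟨g, hg⟩ := h2
    refine ⟨fun j => homogeneousComponent (M - d) (g j), fun j => ?_, ?_⟩
    · exact (homogeneousComponent_isHomogeneous (M - d) (g j)).totalDegree_le
    · have h3 := congrArg (homogeneousComponent M) hg
      rw [map_sum, homogeneousComponent_of_mem ((mem_homogeneousSubmodule _ _).2 (isHomogeneous_X_pow l M)),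
        if_pos rfl] at h3
      rw [← h3]
      refine Finset.sum_congr rfl fun j _ => ?_
      rw [hom_part _ _ d M (ev_hom c j) (by omega)]
  choose g hg1 hg2 using h1
  have key := int_core (O := O) (fun x : Fin n × Fin n => E x.1 x.2) M
    (fun x => ∑ j, rename (fun t => (t, x.2)) (g x.1 j) * ∑ s, C (G s x.2) * X (j, s)) ?_ ?_ (l, i)
  · exact key
  · rintro ⟨l, i⟩
    have h4 : ∀ j : Fin n, (rename (fun t => (t, i)) (g l j) *
        ∑ s, C (G s i) * (X (j, s) : MvPolynomial (Fin n × Fin n) O)).totalDegree ≤ (M - d) + 1 := by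
      intro j
      refine (totalDegree_mul _ _).trans (Nat.add_le_add ((totalDegree_rename_le _ _).trans (hg1 l j)) ?_)
      refine totalDegree_finsetSum_le fun s _ => ?_
      refine (totalDegree_mul _ _).trans ?_
      rw [totalDegree_C, zero_add]
      rcases subsingleton_or_nontrivial O with h | h
      · rw [Subsingleton.elim (X (j, s) : MvPolynomial (Fin n × Fin n) O) 0, totalDegree_zero]
        omega
      · rw [totalDegree_X]
    refine lt_of_le_of_lt (totalDegree_finsetSum_le (d := (M - d) + 1) fun j _ => h4 j) ?_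
    omega
  · rintro ⟨l, i⟩
    simp only
    have h5 := congrArg (aeval (R := O) fun t => E t i) (hg2 l)
    rw [map_sum, map_pow, aeval_X] at h5
    rw [← h5, map_sum]
    refine Finset.sum_congr rfl fun j _ => ?_
    rw [map_mul, map_mul, aeval_rename, ev_aeval, hE i]
    have e1 : ((fun x : Fin n × Fin n => E x.1 x.2) ∘ fun t => (t, i)) = fun t => E t i := rfl
    rw [e1]
    congr 1
    rw [map_sum]
    unfold Matrix.mulVec dotProduct
    refine Finset.sum_congr rfl fun s _ => ?_
    rw [map_mul, aeval_X, aeval_C, mul_comm]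

end Pool.Agent.D0H21.SM
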